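import Pool.Agent.Y89.TX.Stm
import Pool.Agent.Y761.TS.Base
import Pool.Agent.Y259.TS.Mono

/-! Job TX-PAR: the parity argument in rank divisible by four. -/

set_option autoImplicit false
set_option linter.unusedSectionVars false

open Matrix Finset

namespace Pool.Agent.Y130.TX

noncomputable section

open Pool.Agent.Y89.KS (der sl)
open Pool.Agent.Y89.TS (Clf InD mono act)
open Pool.Agent.Y89.TX
open Pool.Agent.Y761.TS (act_act act_one)

section clf

variable {N : Type} [Fintype N] [DecidableEq N] {n : ℕ} {Γ : Fin n → Matrix N N ℂ}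

/-- the generators with numbers -/
def gx (Γ : Fin n → Matrix N N ℂ) (i : ℕ) : Matrix N N ℂ := if h : i < n then Γ ⟨i, h⟩ else 1

/-- the product of the first pairs -/
def pr (Γ : Fin n → Matrix N N ℂ) (m : ℕ) : Matrix N N ℂ := ((List.range (2 * m)).map (gx Γ)).prod

theorem pr_zero : pr Γ 0 = 1 := by simp [pr]

theorem pr_succ (m : ℕ) : pr Γ (m + 1) = pr Γ m * (gx Γ (2 * m) * gx Γ (2 * m + 1)) := by
  unfold pr
  rw [show 2 * (m + 1) = 2 * m + 1 + 1 by ring, List.range_succ, List.range_succ]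
  simp [mul_assoc]

theorem mono_univ : mono Γ univ = ((List.range n).map (gx Γ)).prod := by
  unfold mono
  rw [Fin.sort_univ, ← List.map_coe_finRange_eq_range, List.map_map]
  congr 2
  funext i
  simp [gx]

theorem pair_sq (hΓ : Clf Γ) {a b : Fin n} (h : a ≠ b) :
    Γ a * Γ b * (Γ a * Γ b) = -1 := by
  have h1 := hΓ.anti b a h.symm
  calc Γ a * Γ b * (Γ a * Γ b) = Γ a * (Γ b * Γ a) * Γ b := by simp only [mul_assoc]
    _ = -(Γ a * Γ a * (Γ b * Γ b)) := by rw [h1]; simp only [mul_assoc, mul_neg, neg_mul]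
    _ = -1 := by rw [hΓ.sq, hΓ.sq, one_mul]

theorem pair_comm (hΓ : Clf Γ) {a b c d : Fin n} (h1 : a ≠ c) (h2 : a ≠ d) (h3 : b ≠ c)
    (h4 : b ≠ d) : Γ a * Γ b * (Γ c * Γ d) = Γ c * Γ d * (Γ a * Γ b) := by
  calc Γ a * Γ b * (Γ c * Γ d) = Γ a * (Γ b * Γ c) * Γ d := by simp only [mul_assoc]
    _ = -(Γ a * Γ c * (Γ b * Γ d)) := by
        rw [hΓ.anti b c h3]; simp only [mul_assoc, mul_neg, neg_mul]
    _ = -(Γ c * (Γ a * Γ d) * Γ b) := by
        rw [hΓ.anti a c h1, hΓ.anti b d h4]
        simp only [mul_assoc, mul_neg, neg_mul, neg_neg]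
    _ = Γ c * Γ d * (Γ a * Γ b) := by
        rw [hΓ.anti a d h2]; simp only [mul_assoc, mul_neg, neg_mul, neg_neg]

theorem pr_comm (hΓ : Clf Γ) (m : ℕ) : 2 * m ≤ n → ∀ c d : Fin n, 2 * m ≤ c.val → 2 * m ≤ d.val →
    c ≠ d → pr Γ m * (Γ c * Γ d) = Γ c * Γ d * pr Γ m := by
  induction m with
  | zero =>
    intro _ c d _ _ _
    rw [pr_zero, one_mul, mul_one]
  | succ m ih =>
    intro hm c d hc hd hcd
    have h1 : 2 * m < n := by omega
    have h2 : 2 * m + 1 < n := by omega
    rw [pr_succ, gx, gx, dif_pos h1, dif_pos h2, mul_assoc, pair_comm hΓ, ← mul_assoc,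
      ih (by omega) c d (by omega) (by omega) hcd, mul_assoc]
    all_goals
      intro h
      have h3 := congrArg Fin.val h
      simp only at h3
      omega

theorem pr_sq (hΓ : Clf Γ) (m : ℕ) : 2 * m ≤ n → pr Γ m * pr Γ m = (-1 : ℂ) ^ m • 1 := by
  induction m with
  | zero =>
    intro _
    rw [pr_zero, one_mul, pow_zero, one_smul]
  | succ m ih =>
    intro hm
    have h1 : 2 * m < n := by omega
    have h2 : 2 * m + 1 < n := by omega
    have hne : (⟨2 * m, h1⟩ : Fin n) ≠ ⟨2 * m + 1, h2⟩ := by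
      intro h
      have h3 := congrArg Fin.val h
      simp only at h3
      omega
    have hc := pr_comm hΓ m (by omega) ⟨2 * m, h1⟩ ⟨2 * m + 1, h2⟩ (le_refl _)
      (Nat.le_succ _) hne
    rw [pr_succ, gx, gx, dif_pos h1, dif_pos h2]
    calc pr Γ m * (Γ ⟨2 * m, h1⟩ * Γ ⟨2 * m + 1, h2⟩) *
          (pr Γ m * (Γ ⟨2 * m, h1⟩ * Γ ⟨2 * m + 1, h2⟩)) =
          pr Γ m * (Γ ⟨2 * m, h1⟩ * Γ ⟨2 * m + 1, h2⟩ * pr Γ m) *
          (Γ ⟨2 * m, h1⟩ * Γ ⟨2 * m + 1, h2⟩) := by simp only [mul_assoc]
      _ = pr Γ m * pr Γ m * (Γ ⟨2 * m, h1⟩ * Γ ⟨2 * m + 1, h2⟩ *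
          (Γ ⟨2 * m, h1⟩ * Γ ⟨2 * m + 1, h2⟩)) := by rw [← hc]; simp only [mul_assoc]
      _ = (-1 : ℂ) ^ (m + 1) • 1 := by
        rw [pair_sq hΓ hne, ih (by omega), pow_succ, mul_smul]
        simp

theorem pr_univ {m : ℕ} (hm : n = 2 * m) : pr Γ m = mono Γ univ := by
  rw [mono_univ, pr, ← hm]

theorem w_sq (hΓ : Clf Γ) (hn : n % 4 = 0) : mono Γ univ * mono Γ univ = 1 := by
  have h1 : n = 2 * (n / 2) := by omega
  rw [← pr_univ h1, pr_sq hΓ _ (by omega), Even.neg_one_pow, one_smul]
  rw [Nat.even_iff]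
  omega

theorem w_anti (hΓ : Clf Γ) (hn : Even n) (a : Fin n) :
    mono Γ univ * Γ a = -(Γ a * mono Γ univ) := by
  have h1 := (Pool.Agent.Y259.TS.t_mono N n Γ hΓ).2.2.2 univ {a}
  rw [(Pool.Agent.Y259.TS.t_mono N n Γ hΓ).2.1 a, Finset.card_univ, Fintype.card_fin,
    Finset.card_singleton, Finset.univ_inter, Finset.card_singleton, mul_one,
    Odd.neg_one_pow hn.add_one] at h1
  rw [h1, neg_smul, one_smul]

theorem w_pair (hΓ : Clf Γ) (hn : Even n) (a b : Fin n) :
    mono Γ univ * (Γ a * Γ b) = Γ a * Γ b * mono Γ univ := by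
  rw [← mul_assoc, w_anti hΓ hn, neg_mul, mul_assoc, w_anti hΓ hn, mul_neg, neg_neg, mul_assoc]

end clf

section fx

variable {N : Type} [Fintype N] [DecidableEq N] {n : ℕ} {ι : Type} [Fintype ι] [DecidableEq ι]
  {u : Matrix ι N ℂ} {v : Matrix N ι ℂ} {j : Matrix ι (Fin n) ℂ} {q : Matrix (Fin n) ι ℂ}

/-- block operators -/
def TT (u : Matrix ι N ℂ) (v : Matrix N ι ℂ) (j : Matrix ι (Fin n) ℂ) (q : Matrix (Fin n) ι ℂ)
    (D : Matrix (Fin n) (Fin n) ℂ) (A : Matrix N N ℂ) : Matrix ι ι ℂ :=
  1 - (2 : ℂ) • (j * D * q) - u * v + u * A * v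

theorem uv_mul (hvu : v * u = 1) (A A' : Matrix N N ℂ) :
    u * A * v * (u * A' * v) = u * (A * A') * v := by
  calc u * A * v * (u * A' * v) = u * A * (v * u) * A' * v := by simp only [Matrix.mul_assoc]
    _ = u * (A * A') * v := by rw [hvu, Matrix.mul_one]; simp only [Matrix.mul_assoc]

theorem jq_mul (hqj : q * j = 1) (A A' : Matrix (Fin n) (Fin n) ℂ) :
    j * A * q * (j * A' * q) = j * (A * A') * q := by
  calc j * A * q * (j * A' * q) = j * A * (q * j) * A' * q := by simp only [Matrix.mul_assoc]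
    _ = j * (A * A') * q := by rw [hqj, Matrix.mul_one]; simp only [Matrix.mul_assoc]

theorem jq_uv (hqu : q * u = 0) (D : Matrix (Fin n) (Fin n) ℂ) (A : Matrix N N ℂ) :
    j * D * q * (u * A * v) = 0 := by
  calc j * D * q * (u * A * v) = j * D * (q * u) * A * v := by simp only [Matrix.mul_assoc]
    _ = 0 := by rw [hqu, Matrix.mul_zero, Matrix.zero_mul, Matrix.zero_mul]

theorem uv_jq (hvj : v * j = 0) (D : Matrix (Fin n) (Fin n) ℂ) (A : Matrix N N ℂ) :
    u * A * v * (j * D * q) = 0 := by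
  calc u * A * v * (j * D * q) = u * A * (v * j) * D * q := by simp only [Matrix.mul_assoc]
    _ = 0 := by rw [hvj, Matrix.mul_zero, Matrix.zero_mul, Matrix.zero_mul]

theorem TT_mul (hvu : v * u = 1) (hqj : q * j = 1) (hvj : v * j = 0) (hqu : q * u = 0)
    (D D' : Matrix (Fin n) (Fin n) ℂ) (A A' : Matrix N N ℂ) :
    TT u v j q D A * TT u v j q D' A' =
      TT u v j q (D + D' - (2 : ℂ) • (D * D')) (A * A') := by
  have e1 := jq_mul hqj D D'
  have e2 := jq_uv (j := j) (v := v) hqu D A'
  have e3 := jq_uv (j := j) (v := v) hqu D 1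
  have e4 := uv_jq (u := u) (q := q) hvj D' A
  have e5 := uv_jq (u := u) (q := q) hvj D' 1
  have e6 := uv_mul hvu A A'
  have e7 := uv_mul hvu A 1
  have e8 := uv_mul hvu 1 A'
  have e9 := uv_mul (u := u) (v := v) hvu 1 1
  simp only [Matrix.mul_one, Matrix.one_mul] at e3 e5 e7 e8 e9
  have e10 : j * (D + D' - (2 : ℂ) • (D * D')) * q = j * D * q + j * D' * q -
      (2 : ℂ) • (j * (D * D') * q) := by
    rw [Matrix.mul_sub, Matrix.mul_add, Matrix.sub_mul, Matrix.add_mul, Matrix.mul_smul,
      Matrix.smul_mul]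
  unfold TT
  rw [e10, ← e1, ← e6]
  simp only [sub_mul, add_mul, mul_sub, mul_add, one_mul, mul_one, smul_mul_assoc,
    mul_smul_comm, e2, e3, e4, e5, e7, e8, e9, smul_zero, smul_sub, smul_add]
  module

theorem der_smul {k : ℕ} (c : ℂ) (z : Matrix ι ι ℂ) (f : (Fin k → ι) → ℂ) :
    der (c • z) f = c • der z f := by
  funext J
  simp only [der, sl, Matrix.smul_apply, smul_eq_mul, Pi.smul_apply, Finset.mul_sum, mul_assoc]

end fx

theorem t_par (h : S_weil3) : S_par := by
  intro N _ _ n Γ hΓ hn4 hn ι _ _ u v j q hvu hqj hvj hqu κ hκ k f h1 h2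
  have hev : Even n := by
    rw [Nat.even_iff]
    omega
  set w := mono Γ univ with hw
  have hww : w * w = 1 := w_sq hΓ hn4
  let Fx : Matrix (Fin n) (Fin n) ℂ → Matrix N N ℂ → Prop := fun D A =>
    act (TT u v j q D A)ᵀ f = f
  have hmul : ∀ D D' A A', Fx D A → Fx D' A' → Fx (D + D' - (2 : ℂ) • (D * D')) (A * A') := by
    intro D D' A A' hD hD'
    change act (TT u v j q _ _)ᵀ f = f
    rw [← TT_mul hvu hqj hvj hqu, Matrix.transpose_mul, ← act_act, hD, hD']
  -- step (ii)
  have hg2 : ∀ a b : Fin n, a ≠ b →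
      Fx (Matrix.single a a (1 : ℂ) + Matrix.single b b (1 : ℂ)) (-(Γ a * Γ b)) := by
    intro a b hab
    set S : Matrix (Fin n) (Fin n) ℂ := Matrix.single a b (1 : ℂ) - Matrix.single b a (1 : ℂ)
      with hS
    have hSS : S * S = -(Matrix.single a a (1 : ℂ) + Matrix.single b b (1 : ℂ)) := by
      rw [hS, sub_mul, mul_sub, mul_sub, Matrix.single_mul_single_same,
        Matrix.single_mul_single_same, Matrix.single_mul_single_of_ne _ _ _ _ hab.symm,
        Matrix.single_mul_single_of_ne _ _ _ _ hab]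
      simp
      abel
    have hSSS : S * S * S = -S := by
      rw [hSS, hS, neg_mul, add_mul, mul_sub, mul_sub, Matrix.single_mul_single_same,
        Matrix.single_mul_single_same, Matrix.single_mul_single_of_ne _ _ _ _ hab.symm,
        Matrix.single_mul_single_of_ne _ _ _ _ hab]
      simp
      abel
    have hGG := pair_sq hΓ hab
    have h3 := h ι (Complex.I • (j * S * q)) ((Complex.I / 2) • (u * (Γ a * Γ b) * v))
      (by rw [smul_mul_assoc, mul_smul_comm, jq_uv hqu, smul_zero, smul_zero])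
      (by rw [smul_mul_assoc, mul_smul_comm, uv_jq hvj, smul_zero, smul_zero])
      (by
        simp only [smul_mul_assoc, mul_smul_comm, smul_smul]
        rw [jq_mul hqj, jq_mul hqj, hSSS, Matrix.mul_neg, Matrix.neg_mul, smul_neg, ← neg_smul]
        congr 1
        have e : Complex.I * Complex.I = -1 := Complex.I_mul_I
        linear_combination (-Complex.I) * e)
      (by
        simp only [smul_mul_assoc, mul_smul_comm, smul_smul]
        rw [uv_mul hvu, uv_mul hvu, hGG, neg_one_mul,
          Matrix.mul_neg, Matrix.neg_mul, smul_neg, ← neg_smul]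
        congr 1
        have e : Complex.I * Complex.I = -1 := Complex.I_mul_I
        linear_combination (-(Complex.I / 2)) * e)
      k f (by
        have e : Complex.I • (j * S * q) + (Complex.I / 2) • (u * (Γ a * Γ b) * v) =
            Complex.I • (j * S * q + (1 / 2 : ℂ) • (u * (Γ a * Γ b) * v)) := by
          rw [smul_add, smul_smul, mul_one_div]
        rw [e, der_smul, h2 a b hab, smul_zero])
    change act (TT u v j q _ _)ᵀ f = f
    rw [← h3]
    conv_lhs => rw [h3]
    congr 2
    unfold TT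
    simp only [smul_mul_assoc, mul_smul_comm, smul_smul]
    rw [jq_mul hqj, uv_mul hvu, hGG, hSS]
    have e : Complex.I * Complex.I = -1 := Complex.I_mul_I
    have e1 : (2 : ℂ) * (Complex.I * Complex.I) = -2 := by rw [e]; ring
    have e2 : (4 : ℂ) * (Complex.I / 2 * (Complex.I / 2)) = -1 := by linear_combination e
    have e3 : (2 * Complex.I) * (Complex.I / 2) = -1 := by linear_combination e
    rw [e1, e2, e3]
    simp only [Matrix.mul_neg, Matrix.neg_mul, Matrix.mul_one, smul_neg, neg_smul, one_smul,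
      neg_neg]
  -- step (i)
  have hlt0 : 0 < n := by omega
  have hlt1 : 1 < n := by omega
  have h01 : (⟨0, hlt0⟩ : Fin n) ≠ ⟨1, hlt1⟩ := by
    intro h
    have h3 := congrArg Fin.val h
    simp only at h3
    omega
  have hg1 : Fx 0 (-(κ • w)) := by
    obtain ⟨G, hG⟩ : ∃ G, G = Γ ⟨0, hlt0⟩ * Γ ⟨1, hlt1⟩ := ⟨_, rfl⟩
    have hGG : G * G = -1 := by
      rw [hG]
      exact pair_sq hΓ h01
    have hwG : w * G = G * w := by
      rw [hG]
      exact w_pair hΓ hev _ _
    obtain ⟨e, he⟩ : ∃ e : Matrix N N ℂ, e = (1 / 2 : ℂ) • (1 + κ • w) := ⟨_, rfl⟩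
    have hee : e * e = e := by
      have h3 : (1 + κ • w) * (1 + κ • w) = (2 : ℂ) • (1 + κ • w) := by
        rw [add_mul, mul_add, one_mul, mul_add, one_mul, mul_one, smul_mul_smul_comm, hww, hκ]
        module
      rw [he, smul_mul_smul_comm, h3, smul_smul]
      norm_num
    have heG : e * G = G * e := by
      rw [he]
      simp only [smul_mul_assoc, mul_smul_comm, add_mul, mul_add, one_mul, mul_one, hwG]
    have h2e : G + κ • (w * G) = (2 : ℂ) • (e * G) := by
      rw [he]
      simp only [smul_mul_assoc, add_mul, one_mul, smul_smul]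
      module
    have hY2 : e * G * (e * G) = -e := by
      calc e * G * (e * G) = e * (G * e) * G := by simp only [mul_assoc]
        _ = e * e * (G * G) := by rw [← heG]; simp only [mul_assoc]
        _ = -e := by rw [hee, hGG, mul_neg, mul_one]
    have h3 := h ι 0 ((Complex.I / 2) • (u * (e * G) * v))
      (by rw [Matrix.zero_mul]) (by rw [Matrix.mul_zero])
      (by rw [Matrix.mul_zero])
      (by
        simp only [smul_mul_assoc, mul_smul_comm, smul_smul]
        rw [uv_mul hvu, uv_mul hvu, hY2, neg_mul, ← mul_assoc e e G, hee,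
          Matrix.mul_neg, Matrix.neg_mul, smul_neg, ← neg_smul]
        congr 1
        have e : Complex.I * Complex.I = -1 := Complex.I_mul_I
        linear_combination (-(Complex.I / 2)) * e)
      k f (by
        have h4 := h1 ⟨0, hlt0⟩ ⟨1, hlt1⟩ h01
        rw [← hG, h2e] at h4
        have h5 : (0 : Matrix ι ι ℂ) + (Complex.I / 2) • (u * (e * G) * v) =
            (Complex.I / 4) • (u * ((2 : ℂ) • (e * G)) * v) := by
          rw [zero_add, Matrix.mul_smul, Matrix.smul_mul, smul_smul]
          congr 1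
          ring
        rw [h5, der_smul, h4, smul_zero])
    have h4 : Fx 0 (1 - e - e * G) := by
      change act (TT u v j q _ _)ᵀ f = f
      rw [← h3]
      conv_lhs => rw [h3]
      congr 2
      unfold TT
      simp only [smul_mul_assoc, mul_smul_comm, smul_smul]
      rw [uv_mul hvu, hY2]
      have e' : Complex.I * Complex.I = -1 := Complex.I_mul_I
      have e2 : (4 : ℂ) * (Complex.I / 2 * (Complex.I / 2)) = -1 := by linear_combination e'
      have e3 : (2 * Complex.I) * (Complex.I / 2) = -1 := by linear_combination e'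
      rw [e2, e3]
      simp only [Matrix.mul_neg, Matrix.neg_mul, Matrix.mul_one, smul_neg, neg_smul, one_smul,
        neg_neg, Matrix.mul_zero, Matrix.zero_mul, smul_zero, Matrix.mul_sub, Matrix.sub_mul]
      abel
    have h5 := hmul _ _ _ _ h4 h4
    have h6 : (0 : Matrix (Fin n) (Fin n) ℂ) + 0 - (2 : ℂ) • ((0 : Matrix (Fin n) (Fin n) ℂ) * 0) =
        0 := by simp
    have h7 : (1 - e - e * G) * (1 - e - e * G) = -(κ • w) := by
      have h8 : e * (e * G) = e * G := by rw [← mul_assoc, hee]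
      have h9 : e * G * e = e * G := by rw [mul_assoc, ← heG, h8]
      simp only [sub_mul, mul_sub, one_mul, mul_one, hee, h8, h9, hY2]
      have h10 : (2 : ℂ) • e = 1 + κ • w := by
        rw [he, smul_smul]
        norm_num
      have h11 : κ • w = (2 : ℂ) • e - 1 := by rw [h10]; abel
      rw [h11]
      module
    rw [h6, h7] at h5
    exact h5
  -- step (ii)
  have hneg : Fx 0 (-1) := by
    have h5 := hmul _ _ _ _ (hg2 _ _ h01) (hg2 _ _ h01)
    have h6 : ∀ a b : Fin n, a ≠ b → (Matrix.single a a (1 : ℂ) + Matrix.single b b (1 : ℂ)) *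
        (Matrix.single a a (1 : ℂ) + Matrix.single b b (1 : ℂ)) =
        Matrix.single a a (1 : ℂ) + Matrix.single b b (1 : ℂ) := by
      intro a b h01
      rw [add_mul, mul_add, mul_add, Matrix.single_mul_single_same,
        Matrix.single_mul_single_same, Matrix.single_mul_single_of_ne _ _ _ _ h01.symm,
        Matrix.single_mul_single_of_ne _ _ _ _ h01, mul_one]
      simp
    rw [h6 _ _ h01, neg_mul_neg, pair_sq hΓ h01] at h5
    have h7 : ∀ D : Matrix (Fin n) (Fin n) ℂ, D + D - (2 : ℂ) • D = 0 := fun D => by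
      rw [two_smul, sub_self]
    rw [h7] at h5
    exact h5
  -- step (iii)
  have hprod : ∀ m : ℕ, 2 * m ≤ n →
      Fx (Matrix.diagonal fun i : Fin n => if i.val < 2 * m then (1 : ℂ) else 0)
        ((-1 : ℂ) ^ m • pr Γ m) := by
    intro m
    induction m with
    | zero =>
      intro _
      change act (TT u v j q _ _)ᵀ f = f
      have h5 : TT u v j q (Matrix.diagonal fun i : Fin n =>
          if i.val < 2 * 0 then (1 : ℂ) else 0) ((-1 : ℂ) ^ 0 • pr Γ 0) = 1 := by
        unfold TT
        rw [pr_zero]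
        simp
      rw [h5, Matrix.transpose_one, act_one]
    | succ m ih =>
      intro hm
      have ha : 2 * m < n := by omega
      have hb : 2 * m + 1 < n := by omega
      have hab : (⟨2 * m, ha⟩ : Fin n) ≠ ⟨2 * m + 1, hb⟩ := by
        intro h
        have h3 := congrArg Fin.val h
        simp only at h3
        omega
      have h5 := hmul _ _ _ _ (ih (by omega)) (hg2 _ _ hab)
      have h6 : (Matrix.diagonal fun i : Fin n => if i.val < 2 * m then (1 : ℂ) else 0) *
          (Matrix.single (⟨2 * m, ha⟩ : Fin n) (⟨2 * m, ha⟩ : Fin n) (1 : ℂ) +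
            Matrix.single (⟨2 * m + 1, hb⟩ : Fin n) (⟨2 * m + 1, hb⟩ : Fin n) (1 : ℂ)) = 0 := by
        ext x y
        rw [Matrix.diagonal_mul, Matrix.add_apply, Matrix.single_apply, Matrix.single_apply,
          Matrix.zero_apply]
        by_cases hx : x.val < 2 * m
        · rw [if_pos hx, if_neg, if_neg]
          · simp
          · rintro ⟨h7, -⟩
            have h8 := congrArg Fin.val h7
            simp only at h8
            omega
          · rintro ⟨h7, -⟩
            have h8 := congrArg Fin.val h7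
            simp only at h8
            omega
        · rw [if_neg hx, zero_mul]
      have h7 : (Matrix.diagonal fun i : Fin n => if i.val < 2 * m then (1 : ℂ) else 0) +
          (Matrix.single (⟨2 * m, ha⟩ : Fin n) (⟨2 * m, ha⟩ : Fin n) (1 : ℂ) +
            Matrix.single (⟨2 * m + 1, hb⟩ : Fin n) (⟨2 * m + 1, hb⟩ : Fin n) (1 : ℂ)) =
          Matrix.diagonal fun i : Fin n => if i.val < 2 * (m + 1) then (1 : ℂ) else 0 := by
        ext x y
        rw [Matrix.add_apply, Matrix.add_apply, Matrix.single_apply, Matrix.single_apply,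
          Matrix.diagonal_apply, Matrix.diagonal_apply]
        by_cases hxy : x = y
        · subst hxy
          rw [if_pos rfl, if_pos rfl]
          simp only [and_self, Fin.ext_iff]
          split_ifs <;> first | omega | norm_num
        · rw [if_neg hxy, if_neg hxy, if_neg, if_neg]
          · simp
          · rintro ⟨h8, h9⟩
            exact hxy (h8.symm.trans h9)
          · rintro ⟨h8, h9⟩
            exact hxy (h8.symm.trans h9)
      rw [h6, smul_zero, sub_zero, h7] at h5
      have h8 : (-1 : ℂ) ^ m • pr Γ m * -(Γ ⟨2 * m, ha⟩ * Γ ⟨2 * m + 1, hb⟩) =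
          (-1 : ℂ) ^ (m + 1) • pr Γ (m + 1) := by
        rw [pr_succ, gx, gx, dif_pos ha, dif_pos hb, smul_mul_assoc, mul_neg, pow_succ,
          mul_neg_one, neg_smul, smul_neg]
      rw [h8] at h5
      exact h5
  have hfin : Fx 1 w := by
    have h5 := hprod (n / 2) (by omega)
    have h6 : n = 2 * (n / 2) := by omega
    rw [pr_univ h6, Even.neg_one_pow (by rw [Nat.even_iff]; omega), one_smul] at h5
    have h7 : (Matrix.diagonal fun i : Fin n => if i.val < 2 * (n / 2) then (1 : ℂ) else 0) =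
        1 := by
      rw [← Matrix.diagonal_one]
      congr 1
      funext i
      rw [if_pos]
      have := i.2
      omega
    rw [h7] at h5
    exact h5
  have h5 := hmul _ _ _ _ hfin hg1
  have h6 : (1 : Matrix (Fin n) (Fin n) ℂ) + 0 - (2 : ℂ) • ((1 : Matrix (Fin n) (Fin n) ℂ) * 0) =
      1 := by simp
  rw [h6, mul_neg, mul_smul_comm, hww] at h5
  have hT : TT u v j q (1 : Matrix (Fin n) (Fin n) ℂ) 1 = 1 - (2 : ℂ) • (j * q) := by
    unfold TT
    rw [Matrix.mul_one, Matrix.mul_one, sub_add_cancel]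
  rw [← hT]
  have hκ' : (κ - 1) * (κ + 1) = 0 := by linear_combination hκ
  rcases mul_eq_zero.1 hκ' with h7 | h7
  · have h8 : κ = 1 := by linear_combination h7
    rw [h8, one_smul] at h5
    have h9 := hmul _ _ _ _ h5 hneg
    rw [h6, neg_mul_neg, one_mul] at h9
    exact h9
  · have h8 : κ = -1 := by linear_combination h7
    rw [h8, neg_smul, one_smul, neg_neg] at h5
    exact h5

end

end Pool.Agent.Y130.TX
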